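import Pool.Agent.Q16.SQ.Stm2
import Pool.Agent.Helper549.Tri.Corner

/-!
# Project SQ: job CORNER2 (two different tiles along the two sides at a corner)
-/

set_option autoImplicit false
noncomputable section
open scoped BigOperators
open Filter Topology
open Pool.Agent.Helper549.Tri

namespace Pool.Agent.Q44.SQ

open Pool.Agent.Helper549.Tri.Basic Pool.Agent.Helper549.Tri.AngleSum Pool.Agent.Helper549.Tri.Corner
open Q16.SQ

theorem lam_zero (T : Fin 3 → ℂ) {j k : Fin 3} (h : j ≠ k) : lam T k (T j) = 0 := by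
  have hcases : (j = k + 1) ∨ (j = k + 2) := by
    revert h
    fin_cases j <;> fin_cases k <;> decide
  rcases hcases with e | e
  · rw [e]; exact lam_next T k
  · rw [e]; exact lam_prev T k

theorem sum_cnt {N : ℕ} (t : Fin N → Fin 3 → ℂ) (τ : Fin N → Equiv.Perm (Fin 3)) (p : ℂ) :
    open Classical in
    ∑ x, cnt t τ p x = ∑ i : Fin N, ∑ m : Fin 3, if t i m = p then 1 else 0 := by
  classical
  unfold cnt
  rw [Finset.sum_comm]
  refine Finset.sum_congr rfl fun i _ => ?_
  rw [Finset.sum_comm]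
  refine Finset.sum_congr rfl fun m _ => ?_
  by_cases hm : t i m = p
  · simp [hm]
  · simp [hm]

theorem cnt_pos {N : ℕ} {t : Fin N → Fin 3 → ℂ} (τ : Fin N → Equiv.Perm (Fin 3)) {p : ℂ}
    {i : Fin N} {m : Fin 3} (h : t i m = p) : 0 < cnt t τ p (τ i m) := by
  classical
  unfold cnt
  have h1 : (if t i m = p ∧ τ i m = τ i m then 1 else 0) ≤
      ∑ m' : Fin 3, if t i m' = p ∧ τ i m' = τ i m then 1 else 0 :=
    Finset.single_le_sum (f := fun m' : Fin 3 => if t i m' = p ∧ τ i m' = τ i m then 1 else 0)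
      (fun _ _ => Nat.zero_le _) (Finset.mem_univ m)
  have h2 : (∑ m' : Fin 3, if t i m' = p ∧ τ i m' = τ i m then 1 else 0) ≤
      ∑ i' : Fin N, ∑ m' : Fin 3, if t i' m' = p ∧ τ i' m' = τ i m then 1 else 0 :=
    Finset.single_le_sum
      (f := fun i' : Fin N => ∑ m' : Fin 3, if t i' m' = p ∧ τ i' m' = τ i m then 1 else 0)
      (fun _ _ => Nat.zero_le _) (Finset.mem_univ i)
  rw [if_pos ⟨h, rfl⟩] at h1
  omega

theorem cnt_two {N : ℕ} {t : Fin N → Fin 3 → ℂ} (τ : Fin N → Equiv.Perm (Fin 3)) {p : ℂ}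
    {i i' : Fin N} {m m' : Fin 3} (h : t i m = p) (h' : t i' m' = p) (hi : i ≠ i')
    (he : τ i m = τ i' m') : 2 ≤ cnt t τ p (τ i m) := by
  classical
  unfold cnt
  have h1 : 1 ≤ ∑ m₁ : Fin 3, if t i m₁ = p ∧ τ i m₁ = τ i m then 1 else 0 := by
    have := Finset.single_le_sum
      (f := fun m₁ : Fin 3 => if t i m₁ = p ∧ τ i m₁ = τ i m then 1 else 0)
      (fun _ _ => Nat.zero_le _) (Finset.mem_univ m)
    simp only [h, true_and, if_true] at this
    exact this
  have h2 : 1 ≤ ∑ m₁ : Fin 3, if t i' m₁ = p ∧ τ i' m₁ = τ i m then 1 else 0 := by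
    have := Finset.single_le_sum
      (f := fun m₁ : Fin 3 => if t i' m₁ = p ∧ τ i' m₁ = τ i m then 1 else 0)
      (fun _ _ => Nat.zero_le _) (Finset.mem_univ m')
    simp only [h', he.symm, true_and, if_true] at this
    exact this
  have h3 : (∑ i₁ ∈ ({i, i'} : Finset (Fin N)), ∑ m₁ : Fin 3,
        if t i₁ m₁ = p ∧ τ i₁ m₁ = τ i m then 1 else 0) ≤
      ∑ i₁ : Fin N, ∑ m₁ : Fin 3, if t i₁ m₁ = p ∧ τ i₁ m₁ = τ i m then 1 else 0 :=
    Finset.sum_le_sum_of_subset (Finset.subset_univ _)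
  rw [Finset.sum_pair hi] at h3
  omega

theorem bcnt_pos {N : ℕ} {T : Fin 3 → ℂ} {t : Fin N → Fin 3 → ℂ} (τ : Fin N → Equiv.Perm (Fin 3))
    {k : Fin 3} {i : Fin N} {l : Fin 3} (h : onBd T (t i) l k) : 0 < bcnt T t τ k (τ i l) := by
  classical
  unfold bcnt
  have h1 : (if onBd T (t i) l k ∧ τ i l = τ i l then 1 else 0) ≤
      ∑ l' : Fin 3, if onBd T (t i) l' k ∧ τ i l' = τ i l then 1 else 0 :=
    Finset.single_le_sum
      (f := fun l' : Fin 3 => if onBd T (t i) l' k ∧ τ i l' = τ i l then 1 else 0)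
      (fun _ _ => Nat.zero_le _) (Finset.mem_univ l)
  have h2 : (∑ l' : Fin 3, if onBd T (t i) l' k ∧ τ i l' = τ i l then 1 else 0) ≤
      ∑ i' : Fin N, ∑ l' : Fin 3, if onBd T (t i') l' k ∧ τ i' l' = τ i l then 1 else 0 :=
    Finset.single_le_sum
      (f := fun i' : Fin N => ∑ l' : Fin 3, if onBd T (t i') l' k ∧ τ i' l' = τ i l then 1 else 0)
      (fun _ _ => Nat.zero_le _) (Finset.mem_univ i)
  rw [if_pos ⟨h, rfl⟩] at h1
  omega

theorem t_CORNER2 : S_CORNER2 := by
  classical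
  intro N T t h τ j k k' hjk hjk' hkk' h2
  obtain ⟨i, m, l, him, hlm, hb⟩ := corner_side h j k hjk
  obtain ⟨i', m', l', him', hlm', hb'⟩ := corner_side h j k' hjk'
  have hii : i ≠ i' := by
    rintro rfl
    have hmm : m' = m := vertex_inj (t i) (h.ccwt i) (him'.trans him.symm)
    have hne : ∃ (i₁ : Fin N) (m₁ : Fin 3), t i₁ m₁ = T j ∧ i₁ ≠ i := by
      by_contra hcon
      push Not at hcon
      have h3 : ∑ i₁ : Fin N, ∑ m₁ : Fin 3, (if t i₁ m₁ = T j then 1 else 0) = 1 := by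
        rw [Finset.sum_eq_single i, Finset.sum_eq_single m]
        · rw [if_pos him]
        · intro m₁ _ hm₁
          rw [if_neg]
          intro h4
          exact hm₁ (vertex_inj (t i) (h.ccwt i) (h4.trans him.symm))
        · intro h4; exact absurd (Finset.mem_univ m) h4
        · intro i₁ _ hi₁
          apply Finset.sum_eq_zero
          intro m₁ _
          rw [if_neg]
          intro h4
          exact hi₁ (hcon i₁ m₁ h4)
        · intro h4; exact absurd (Finset.mem_univ i) h4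
      have h4 := sum_cnt t τ (T j)
      have h5 : 2 ≤ ∑ x, cnt t τ (T j) x := h2
      rw [h4, h3] at h5
      omega
    obtain ⟨i₁, m₁, h5, h6⟩ := hne
    have hnear := h_near h.ccwT (h.ccwt i) (lam_zero T hjk) (lam_zero T hjk') hkk' hb hb'
    have hcl : T j ∈ closure (interior (hull (t i₁))) := by
      have hc : Convex ℝ (hull (t i₁)) := convex_convexHull ℝ _
      rw [hc.closure_interior_eq_closure_of_nonempty_interior
        (hull_interior_nonempty (t i₁) (h.ccwt i₁))]
      apply subset_closure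
      rw [← h5]
      exact subset_convexHull ℝ _ (Set.mem_range_self _)
    obtain ⟨p, hp1, hp2⟩ := (mem_closure_iff_nhds.1 hcl) _ hnear
    have hpT := (mem_int T h.ccwT p).1 (interior_mono (h_sub h i₁) hp2)
    exact Set.disjoint_left.mp (h.disj i₁ i h6) hp2 (hp1 (hpT k) (hpT k'))
  refine ⟨τ i m, τ i l, τ i' m', τ i' l', fun e => hlm ((τ i).injective e).symm,
    fun e => hlm' ((τ i').injective e).symm, cnt_pos τ him, cnt_pos τ him',
    fun e => cnt_two τ him him' hii e, bcnt_pos τ hb, bcnt_pos τ hb'⟩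

end Pool.Agent.Q44.SQ
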